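import Pool.Agent.H992.PM.JDefs

/-!
# Products of powers (JM11, helper101)
-/

set_option autoImplicit false
open MeasureTheory Filter Topology Complex ProbabilityTheory
open scoped ContDiff ENNReal

namespace Pool.Agent.H101.JM

open Pool.Agent.N661.BR (MW IsRandomWave)
open Pool.Agent.N661.BH (loc)
open Pool.Agent.H992.PM

theorem loc_zero (lam : ℝ) (u : ℂ → ℝ) (z : ℂ) : loc lam u z 0 = u z := by
  unfold Pool.Agent.N661.BH.loc
  rw [mul_zero, add_zero]

theorem eval_prod {d : ℕ} (a : Fin d → ℕ) (g : Fin d × Fin 1 → ℝ) :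
    MvPolynomial.eval g (∏ i, MvPolynomial.X (i, 0) ^ a i) = ∏ i, g (i, 0) ^ a i := by
  rw [map_prod]
  refine Finset.prod_congr rfl fun i _ => ?_
  rw [map_pow, MvPolynomial.eval_X]

theorem jq (h : S_GM) : S_JQ := by
  intro d Ω χ lam u a
  constructor
  · unfold jpMean
    have h1 : ∀ (z : ℂ) (θ : ℝ),
        (MvPolynomial.eval (fun q : Fin d × Fin 1 =>
          loc (lam q.1) (u q.1) z (Complex.exp (θ * I) * (0 : ℂ)))
            (∏ i, MvPolynomial.X (i, 0) ^ a i) +
        MvPolynomial.eval (fun q : Fin d × Fin 1 =>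
          loc (lam q.1) (u q.1) z (Complex.exp (θ * I) * starRingEnd ℂ (0 : ℂ)))
            (∏ i, MvPolynomial.X (i, 0) ^ a i)) = 2 * ∏ i, u i z ^ a i := by
      intro z θ
      rw [eval_prod, eval_prod, map_zero, mul_zero, two_mul]
      have h2 : ∀ i, loc (lam i) (u i) z 0 = u i z := fun i => loc_zero _ _ _
      rw [Finset.prod_congr rfl fun i (_ : i ∈ Finset.univ) => by rw [h2 i]]
    have h3 : ∀ z : ℂ, (1 / (4 * Real.pi) * ∫ _θ in (0:ℝ)..(2 * Real.pi),
        (2 * ∏ i, u i z ^ a i)) = ∏ i, u i z ^ a i := by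
      intro z
      rw [intervalIntegral.integral_const, smul_eq_mul]
      have := Real.pi_pos.ne'
      field_simp
      ring
    simp only [h1, h3]
  · intro γ hγp hγ
    have h2 : ∀ F : Fin d → MW, MvPolynomial.eval (fun q : Fin d × Fin 1 => (F q.1 : ℂ → ℝ) 0)
        (∏ i, MvPolynomial.X (i, 0) ^ a i) = ∏ i, (F i : ℂ → ℝ) 0 ^ a i := fun F => by
      rw [eval_prod]
    have h3 : (∫ F : Fin d → MW, MvPolynomial.eval (fun q : Fin d × Fin 1 => (F q.1 : ℂ → ℝ) 0)
        (∏ i, MvPolynomial.X (i, 0) ^ a i) ∂(Measure.pi fun _ => γ)) =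
        ∫ F : Fin d → MW, ∏ i, (F i : ℂ → ℝ) 0 ^ a i ∂(Measure.pi fun _ => γ) := by
      simp only [h2]
    refine h3.trans ?_
    have h4 := integral_fintype_prod_eq_prod (𝕜 := ℝ) (μ := fun _ : Fin d => γ)
      (fun (i : Fin d) (f : MW) => (f : ℂ → ℝ) 0 ^ a i)
    refine h4.trans ?_
    exact Finset.prod_congr rfl fun i _ => (h γ hγp hγ).2 0 (a i)

end Pool.Agent.H101.JM
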